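import Pool.Agent.Helper41.LD.Defs
import Pool.Agent.Helper95.KX.SMeas

/-!
# Project LD3, block LIST: the list of the good bases
-/

set_option autoImplicit false

namespace Pool.Agent.Helper96.LD3

open Polynomial
open Pool.Agent.Helper41.LD (Dioph)

theorem base_ge {d q : ℕ} (hd : 1 ≤ d) (hq : 1 ≤ q) : (1 : ℝ) ≤ (d : ℝ) + Real.log q := by
  have h1 : (1 : ℝ) ≤ d := by exact_mod_cast hd
  have h2 : (0 : ℝ) ≤ Real.log q := Real.log_natCast_nonneg q
  linarith

/-- larger exponents -/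
theorem dioph_mono {θ : ℝ} {κ κ' : ℕ} (hκ : κ ≤ κ') (h : Dioph θ κ) : Dioph θ κ' := by
  obtain ⟨C, hC, h⟩ := h
  refine ⟨C, hC, fun d q hd hq p => le_trans ?_ (h d q hd hq p)⟩
  apply Real.exp_le_exp.2
  apply neg_le_neg
  exact mul_le_mul_of_nonneg_left (pow_le_pow_right₀ (base_ge hd hq) hκ) hC.le

/-- powers: `q (θ^u)^d = q θ^(u d)` and `u d + log q ≤ u (d + log q)` -/
theorem dioph_pow {θ : ℝ} {κ : ℕ} (h : Dioph θ κ) {u : ℕ} (hu : 1 ≤ u) : Dioph (θ ^ u) κ := by
  obtain ⟨C, hC, h⟩ := h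
  have hu1 : (1 : ℝ) ≤ u := by exact_mod_cast hu
  refine ⟨C * (u : ℝ) ^ κ, by positivity, fun d q hd hq p => ?_⟩
  have h1 := h (u * d) q (Nat.mul_pos hu hd) hq p
  rw [pow_mul] at h1
  refine le_trans ?_ h1
  apply Real.exp_le_exp.2
  apply neg_le_neg
  rw [mul_assoc]
  apply mul_le_mul_of_nonneg_left _ hC.le
  rw [← mul_pow]
  have h2 : (0 : ℝ) ≤ Real.log q := Real.log_natCast_nonneg q
  apply pow_le_pow_left₀ (by positivity)
  push_cast
  nlinarith

/-- rational powers; `hroot` is the statement of `dioph_root` (helper95, LD3 block GEN) -/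
theorem dioph_rat (hroot : ∀ {θ : ℝ} {κ : ℕ}, 1 < θ → 1 ≤ κ → Dioph θ κ → ∀ {v : ℕ}, 1 ≤ v → Dioph (θ ^ ((1 : ℝ) / v)) κ)
    {θ : ℝ} {κ : ℕ} (hθ : 1 < θ) (hκ : 1 ≤ κ) (h : Dioph θ κ) {r : ℚ} (hr : 0 < r) : Dioph (θ ^ (r : ℝ)) κ := by
  have hn : 0 < r.num := Rat.num_pos.2 hr
  have hd : 1 ≤ r.den := r.den_pos
  have h1 := hroot hθ hκ h hd
  have h2 := dioph_pow h1 (u := r.num.toNat) (by omega)
  have h3 : (θ ^ ((1 : ℝ) / r.den)) ^ r.num.toNat = θ ^ (r : ℝ) := by
    rw [← Real.rpow_natCast, ← Real.rpow_mul (by linarith)]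
    congr 1
    have h4 : ((r.num.toNat : ℕ) : ℝ) = (r.num : ℝ) := by
      have h5 : ((r.num.toNat : ℕ) : ℤ) = r.num := Int.toNat_of_nonneg hn.le
      exact_mod_cast h5
    rw [h4, Rat.cast_def]
    ring
  rw [h3] at h2
  exact h2

/-- from the sparse measure: `P = q X^d - p`; if `|p| > 2 q θ^d` the distance is at least `1`, otherwise `log (1 + |p|) ≤ C (d + log q)` -/
theorem smeas_dioph {θ : ℝ} (hθ : 1 < θ) (h : Pool.Agent.Helper95.KX.SMeas θ) : ∃ κ : ℕ, 1 ≤ κ ∧ Dioph θ κ := by
  obtain ⟨A, C, hC, h⟩ := h 1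
  have hl : 0 < Real.log θ := Real.log_pos hθ
  refine ⟨A + 1, by omega, C * (3 + Real.log θ) ^ A, by positivity, fun d q hd hq p => ?_⟩
  have hb := base_ge hd hq
  have hq1 : (1 : ℝ) ≤ q := by exact_mod_cast hq
  have hq0 : (0 : ℝ) < q := by linarith
  have hd1 : (1 : ℝ) ≤ d := by exact_mod_cast hd
  have hθd : 1 ≤ θ ^ d := one_le_pow₀ hθ.le
  rcases lt_or_ge (2 * ((q : ℝ) * θ ^ d)) |(p : ℝ)| with hp | hp
  · have h1 : Real.exp (-(C * (3 + Real.log θ) ^ A * ((d : ℝ) + Real.log q) ^ (A + 1))) ≤ 1 := by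
      apply Real.exp_le_one_iff.2
      have : 0 ≤ C * (3 + Real.log θ) ^ A * ((d : ℝ) + Real.log q) ^ (A + 1) := by positivity
      linarith
    refine h1.trans ?_
    have h2 : |(p : ℝ)| - |(q : ℝ) * θ ^ d| ≤ |(q : ℝ) * θ ^ d - p| := by
      rw [abs_sub_comm]
      exact abs_sub_abs_le_abs_sub _ _
    have h3 : |(q : ℝ) * θ ^ d| = q * θ ^ d := abs_of_pos (by positivity)
    have h4 : (1 : ℝ) ≤ q * θ ^ d := by nlinarith
    linarith
  · set P : ℤ[X] := Polynomial.C (q : ℤ) * X ^ d - Polynomial.C p with hP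
    have hPd : P.coeff d = q := by
      rw [hP, coeff_sub, coeff_C_mul, coeff_X_pow, if_pos rfl, coeff_C, if_neg (by omega)]
      ring
    have hP0 : P ≠ 0 := by
      intro h0
      rw [h0, coeff_zero] at hPd
      have : (q : ℤ) = 0 := hPd.symm
      omega
    have hdeg : P.natDegree ≤ d := by
      rw [hP]
      refine (natDegree_sub_le _ _).trans (max_le ?_ ?_)
      · exact natDegree_C_mul_X_pow_le _ _
      · rw [natDegree_C]; omega
    have hsupp : P.support.card ≤ 1 + 1 := by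
      have h1 : P.support ⊆ {d, 0} := by
        intro i hi
        rw [Polynomial.mem_support_iff] at hi
        rw [Finset.mem_insert, Finset.mem_singleton]
        by_contra hcon
        push Not at hcon
        apply hi
        rw [hP, coeff_sub, coeff_C_mul, coeff_X_pow, if_neg hcon.1, coeff_C, if_neg hcon.2]
        ring
      refine (Finset.card_le_card h1).trans ?_
      exact (Finset.card_insert_le _ _).trans (by simp)
    set H : ℕ := max q p.natAbs with hH
    have hcoef : ∀ i, |P.coeff i| ≤ H := by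
      intro i
      rw [hP, coeff_sub, coeff_C_mul, coeff_X_pow, coeff_C]
      have e1 : (q : ℤ) ≤ H := by exact_mod_cast le_max_left _ _
      have e2 : |p| ≤ H := by
        rw [Int.abs_eq_natAbs]
        exact_mod_cast le_max_right _ _
      by_cases hi : i = d
      · rw [if_pos hi, if_neg (by omega)]
        rw [mul_one, sub_zero, abs_of_nonneg (by positivity)]
        exact e1
      · rw [if_neg hi]
        by_cases hi0 : i = 0
        · rw [if_pos hi0, mul_zero, zero_sub, abs_neg]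
          exact e2
        · rw [if_neg hi0]
          simp
    have hmain := h d H P hP0 hdeg hsupp hcoef
    have haev : Polynomial.aeval θ P = q * θ ^ d - p := by
      rw [hP]
      simp
    rw [haev] at hmain
    refine le_trans ?_ hmain
    apply Real.exp_le_exp.2
    apply neg_le_neg
    have hHle : (1 : ℝ) + H ≤ 3 * (q * θ ^ d) := by
      have h4 : (1 : ℝ) ≤ q * θ ^ d := by nlinarith
      have e1 : (H : ℝ) ≤ 2 * (q * θ ^ d) := by
        rw [hH]
        push_cast
        apply max_le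
        · nlinarith
        · have e3 : ((p.natAbs : ℕ) : ℝ) = |(p : ℝ)| := by
            rw [Nat.cast_natAbs, Int.cast_abs]
          rw [e3]
          exact hp
      linarith
    have hlog : Real.log (1 + (H : ℝ)) ≤ 2 + (Real.log q + d * Real.log θ) := by
      have h5 := Real.log_le_log (by positivity) hHle
      rw [Real.log_mul (by norm_num) (by positivity), Real.log_mul (by positivity) (by positivity), Real.log_pow] at h5
      have h6 : Real.log 3 ≤ 2 := by
        have := Real.log_le_sub_one_of_pos (by norm_num : (0 : ℝ) < 3)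
        linarith
      linarith
    have hlq : (0 : ℝ) ≤ Real.log q := Real.log_natCast_nonneg q
    have h7 : (d : ℝ) + Real.log (1 + H) ≤ (3 + Real.log θ) * ((d : ℝ) + Real.log q) := by
      have h8 : 0 ≤ Real.log θ * Real.log q := by positivity
      nlinarith
    have h9 : 0 ≤ (d : ℝ) + Real.log (1 + H) := by
      have : 0 ≤ Real.log (1 + (H : ℝ)) := Real.log_nonneg (by have : (0 : ℝ) ≤ H := Nat.cast_nonneg _; linarith)
      linarith
    calc C * ((d : ℝ) + Real.log (1 + H)) ^ A ≤ C * ((3 + Real.log θ) * ((d : ℝ) + Real.log q)) ^ A :=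
          mul_le_mul_of_nonneg_left (pow_le_pow_left₀ h9 h7 _) hC.le
      _ = C * (3 + Real.log θ) ^ A * ((d : ℝ) + Real.log q) ^ A := by rw [mul_pow]; ring
      _ ≤ C * (3 + Real.log θ) ^ A * ((d : ℝ) + Real.log q) ^ (A + 1) :=
          mul_le_mul_of_nonneg_left (pow_le_pow_right₀ hb (Nat.le_succ A)) (by positivity)

end Pool.Agent.Helper96.LD3
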